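import Pool.Agent.N554.TG.Stm

set_option autoImplicit false

/-!
# Part ASY: choice of the parameters
-/

open Finset Filter

namespace Pool.Agent.N353.TG

open Pool.Agent.N554.TG

theorem colorable_mono {d : ℕ} {S : Finset (EuclideanSpace ℝ (Fin d))} {m n : ℕ} (h : m ≤ n)
    (hm : ColorableWith S m) : ColorableWith S n := by
  obtain ⟨f, hf⟩ := hm
  refine ⟨fun x => Fin.castLE h (f x), fun x hx y hy hxy h1 => hf x hx y hy hxy ?_⟩
  exact (Fin.castLE_injective h) h1

theorem large : ∃ D : ℕ, ∀ d : ℕ, D ≤ d → 8 ≤ d ∧ 6 * Real.log 2 ≤ Real.log d ∧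
    1 ≤ Real.log (Real.log d) ∧ 192 * Real.log (Real.log d) ≤ Real.log d := by
  have hL : Tendsto (fun d : ℕ => Real.log (d : ℝ)) atTop atTop :=
    Real.tendsto_log_atTop.comp tendsto_natCast_atTop_atTop
  have h1 : ∀ᶠ d : ℕ in atTop, 8 ≤ d := eventually_ge_atTop 8
  have h2 : ∀ᶠ d : ℕ in atTop, 6 * Real.log 2 ≤ Real.log d := hL.eventually_ge_atTop _
  have h3 : ∀ᶠ d : ℕ in atTop, 1 ≤ Real.log (Real.log d) :=
    (Real.tendsto_log_atTop.comp hL).eventually_ge_atTop _
  have h4 : ∀ᶠ x : ℝ in atTop, 192 * Real.log x ≤ x := by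
    have h5 := Real.isLittleO_log_id_atTop.bound (show (0 : ℝ) < 1 / 192 by norm_num)
    filter_upwards [h5, eventually_ge_atTop (1 : ℝ)] with x hx hx1
    rw [Real.norm_of_nonneg (Real.log_nonneg hx1), id, Real.norm_of_nonneg (by linarith)] at hx
    linarith
  have h5 : ∀ᶠ d : ℕ in atTop, 192 * Real.log (Real.log d) ≤ Real.log d := hL.eventually h4
  obtain ⟨D, hD⟩ := eventually_atTop.1 (h1.and (h2.and (h3.and h5)))
  exact ⟨D, fun d hd => hD d hd⟩

/-- a prime `q` with `q ^ 3 ≤ d < (2 q) ^ 3` -/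
theorem prime_cube {d : ℕ} (hd : 8 ≤ d) : ∃ q : ℕ, q.Prime ∧ q ^ 3 ≤ d ∧ d < (2 * q) ^ 3 := by
  set n := Nat.findGreatest (fun n => (2 * n) ^ 3 ≤ d) d with hn
  have h1 : (2 * n) ^ 3 ≤ d := by
    have h0 : (2 * 1) ^ 3 ≤ d := by norm_num; exact hd
    exact Nat.findGreatest_spec (P := fun n => (2 * n) ^ 3 ≤ d) (by omega : 1 ≤ d) h0
  have h2 : 1 ≤ n := by
    have h0 : (2 * 1) ^ 3 ≤ d := by norm_num; exact hd
    exact Nat.le_findGreatest (by omega : 1 ≤ d) h0
  have h3 : d < (2 * (n + 1)) ^ 3 := by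
    by_contra h
    have h4 : (2 * (n + 1)) ^ 3 ≤ d := not_lt.1 h
    have h5 : n + 1 ≤ d := by
      calc n + 1 ≤ 2 * (n + 1) := by omega
        _ ≤ (2 * (n + 1)) ^ 3 := Nat.le_self_pow (by norm_num) _
        _ ≤ d := h4
    have h6 : n + 1 ≤ n := Nat.le_findGreatest h5 h4
    omega
  obtain ⟨q, hq, hq1, hq2⟩ := Nat.exists_prime_lt_and_le_two_mul n (by omega)
  refine ⟨q, hq, (Nat.pow_le_pow_left hq2 3).trans h1, h3.trans_le ?_⟩
  exact Nat.pow_le_pow_left (by omega) 3

theorem t_asy (h : S_GEO) : S_ASY := by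
  obtain ⟨D, hD⟩ := large
  refine ⟨1 / 576, by norm_num, D, ?_⟩
  intro d hd
  obtain ⟨hd8, hL1, hL2, hL3⟩ := hD d hd
  obtain ⟨q, hq, hq1, hq2⟩ := prime_cube hd8
  have : Fact q.Prime := ⟨hq⟩
  have hqpos : (0 : ℝ) < q := by exact_mod_cast hq.pos
  set L := Real.log d with hLdef
  set ll := Real.log L with hlldef
  have hlog2 : 0 < Real.log 2 := Real.log_pos (by norm_num)
  have hL : 0 < L := by linarith
  -- lower bound for log q
  have hlq : L / 6 ≤ Real.log q := by
    have h1 : (d : ℝ) ≤ (2 * q) ^ 3 := by exact_mod_cast hq2.le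
    have h2 : Real.log d ≤ Real.log ((2 * q) ^ 3) :=
      Real.log_le_log (by exact_mod_cast (by omega : 0 < d)) h1
    rw [Real.log_pow, Real.log_mul (by norm_num) hqpos.ne'] at h2
    push_cast at h2
    change L ≤ _ at h2
    linarith
  have hlqpos : 0 < Real.log q := by linarith
  set κ := ⌊L / (96 * ll)⌋₊ with hκdef
  have h96 : 0 < 96 * ll := by linarith
  have hx2 : 2 ≤ L / (96 * ll) := by
    rw [le_div_iff₀ h96]
    linarith
  have hκ2 : 2 ≤ κ := Nat.le_floor (by exact_mod_cast hx2)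
  have hκle : (κ : ℝ) ≤ L / (96 * ll) := Nat.floor_le (by linarith)
  have hκlt : L / (96 * ll) < κ + 1 := Nat.lt_floor_add_one _
  have hκge : L / (192 * ll) ≤ κ := by
    have h1 : L / (192 * ll) = L / (96 * ll) / 2 := by
      rw [div_div]
      congr 1
      ring
    rw [h1]
    have h2 : (2 : ℝ) ≤ κ := by exact_mod_cast hκ2
    linarith
  have hκpos : (0 : ℝ) < κ := by
    have h2 : (2 : ℝ) ≤ κ := by exact_mod_cast hκ2
    linarith
  -- the power condition
  have hpow : (4 * κ) ^ (16 * κ) ≤ q := by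
    have h1 : (4 * (κ : ℝ)) ≤ L := by
      calc 4 * (κ : ℝ) ≤ 4 * (L / (96 * ll)) := by linarith
        _ ≤ L := by
          rw [mul_div_assoc', div_le_iff₀ h96]
          nlinarith
    have h2 : Real.log (4 * κ) ≤ ll := Real.log_le_log (by positivity) h1
    have h3 : (16 * κ : ℝ) * Real.log (4 * κ) ≤ Real.log q := by
      calc (16 * κ : ℝ) * Real.log (4 * κ) ≤ (16 * κ : ℝ) * ll := by
            apply mul_le_mul_of_nonneg_left h2
            positivity
        _ ≤ 16 * (L / (96 * ll)) * ll := by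
            apply mul_le_mul_of_nonneg_right _ (by linarith)
            linarith
        _ = L / 6 := by
            have : ll ≠ 0 := by linarith
            field_simp
            norm_num
        _ ≤ Real.log q := hlq
    have h4 : Real.log ((4 * (κ : ℝ)) ^ (16 * κ)) ≤ Real.log q := by
      rw [Real.log_pow]
      push_cast
      exact h3
    have h5 : (4 * (κ : ℝ)) ^ (16 * κ) ≤ q := (Real.log_le_log_iff (by positivity) hqpos).1 h4
    exact_mod_cast h5
  obtain ⟨S, hS1, hS2⟩ := h κ q hκ2 hpow d hq1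
  refine ⟨S, hS1, fun m hm hcol => hS2 (colorable_mono ?_ hcol)⟩
  -- m ≤ q ^ (2 κ)
  have h6 : 1 / 576 * L ^ 2 / ll ≤ Real.log ((q : ℝ) ^ (2 * κ)) := by
    rw [Real.log_pow]
    push_cast
    calc 1 / 576 * L ^ 2 / ll = 2 * (L / (192 * ll)) * (L / 6) := by
          have : ll ≠ 0 := by linarith
          field_simp
          norm_num
      _ ≤ 2 * κ * Real.log q := by
          apply mul_le_mul _ hlq (by positivity) (by positivity)
          linarith
  have h7 : (m : ℝ) ≤ (q : ℝ) ^ (2 * κ) := by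
    refine hm.trans ?_
    calc Real.exp (1 / 576 * L ^ 2 / ll) ≤ Real.exp (Real.log ((q : ℝ) ^ (2 * κ))) :=
          Real.exp_le_exp.2 h6
      _ = (q : ℝ) ^ (2 * κ) := Real.exp_log (by positivity)
  exact_mod_cast h7

end Pool.Agent.N353.TG
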