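import Pool.Agent.N554.TG.Stm

set_option autoImplicit false

/-!
# Part GEO: from the code to a packing of balls
-/

open Finset

namespace Pool.Agent.N353.TG

open Pool.Agent.N554.TG

section emb

variable {q k N : ℕ} [Fact q.Prime]

theorem ev_sub (y z : Fin k → ZMod q) (ω : ZMod q) : ev (y - z) ω = ev y ω - ev z ω := by
  unfold ev
  rw [← Finset.sum_sub_distrib]
  refine Finset.sum_congr rfl fun j _ => ?_
  simp only [Pi.sub_apply]
  ring

/-- the indicator of the graph of the word -/
noncomputable def gr (c : ℝ) (u : G q k N) (t : Fin N × ZMod q × ZMod q) : ℝ :=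
  if ev (u t.1) t.2.1 = t.2.2 then c else 0

theorem sum_gr (c : ℝ) (u v : G q k N) :
    ∑ t : Fin N × ZMod q × ZMod q, (gr c u t - gr c v t) ^ 2 =
      2 * c ^ 2 * ∑ i : Fin N, ((q : ℝ) - (zeros (u i - v i)).card) := by
  rw [Fintype.sum_prod_type, Finset.mul_sum]
  refine Finset.sum_congr rfl fun i _ => ?_
  rw [Fintype.sum_prod_type]
  have h1 : ∀ w : ZMod q, ∑ a : ZMod q, (gr c u (i, w, a) - gr c v (i, w, a)) ^ 2 =
      if ev (u i - v i) w = 0 then 0 else 2 * c ^ 2 := by
    intro w
    by_cases h : ev (u i - v i) w = 0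
    · rw [if_pos h]
      rw [ev_sub, sub_eq_zero] at h
      apply Finset.sum_eq_zero
      intro a _
      simp only [gr, h, sub_self]
      ring
    · rw [if_neg h]
      rw [ev_sub, sub_eq_zero] at h
      have h2 : ∀ a : ZMod q, (gr c u (i, w, a) - gr c v (i, w, a)) ^ 2 =
          (if ev (u i) w = a then c ^ 2 else 0) + (if ev (v i) w = a then c ^ 2 else 0) := by
        intro a
        simp only [gr]
        by_cases h3 : ev (u i) w = a
        · have h4 : ¬ ev (v i) w = a := fun h5 => h (h3.trans h5.symm)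
          rw [if_pos h3, if_pos h3, if_neg h4, if_neg h4]
          ring
        · by_cases h4 : ev (v i) w = a
          · rw [if_neg h3, if_neg h3, if_pos h4, if_pos h4]
            ring
          · rw [if_neg h3, if_neg h3, if_neg h4, if_neg h4]
            ring
      simp only [h2]
      rw [Finset.sum_add_distrib, Finset.sum_ite_eq, Finset.sum_ite_eq, if_pos (mem_univ _),
        if_pos (mem_univ _)]
      ring
  simp only [h1]
  rw [Finset.sum_ite, Finset.sum_const_zero, zero_add, Finset.sum_const, nsmul_eq_mul]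
  have h3 : ((univ.filter fun w : ZMod q => ¬ ev (u i - v i) w = 0).card : ℝ) =
      (q : ℝ) - (zeros (u i - v i)).card := by
    have h4 := Finset.card_filter_add_card_filter_not (s := (univ : Finset (ZMod q)))
      (fun w => ev (u i - v i) w = 0)
    rw [Finset.card_univ, ZMod.card] at h4
    have h5 : ((zeros (u i - v i)).card : ℝ) +
        ((univ.filter fun w : ZMod q => ¬ ev (u i - v i) w = 0).card : ℝ) = q := by
      exact_mod_cast h4
    linarith
  rw [h3]
  ring

theorem zeros_zero : (zeros (0 : Fin k → ZMod q)).card = q := by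
  have h1 : zeros (0 : Fin k → ZMod q) = univ := by
    unfold zeros
    rw [Finset.filter_true_of_mem]
    intro w _
    simp [ev]
  rw [h1, Finset.card_univ, ZMod.card]

/-- the sum over the blocks is a sum over the blocks where the words differ -/
theorem sum_dif (u v : G q k N) : ∑ i : Fin N, ((q : ℝ) - (zeros (u i - v i)).card) =
    ∑ i ∈ dif u v, ((q : ℝ) - (zeros (u i - v i)).card) := by
  symm
  apply Finset.sum_subset (subset_univ _)
  intro i _ hi
  have h1 : u i = v i := by
    by_contra h
    exact hi (mem_filter.2 ⟨mem_univ _, h⟩)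
  rw [h1, sub_self, zeros_zero, sub_self]

end emb

theorem t_geo (h1 : S_CORE) (h2 : S_RS) : S_GEO := by
  classical
  intro κ q _ hκ hq d hd
  have hqp : q.Prime := Fact.out
  set k := 4 * κ with hk
  set N := q / (2 * k) with hN
  have hkq : k ^ (4 * k) ≤ q := by
    have h3 : 4 * k = 16 * κ := by omega
    rw [h3]
    exact hq
  have hk8 : 8 ≤ k := by omega
  have hkle : k ≤ q := (Nat.le_self_pow (by omega) k).trans hkq
  obtain ⟨X, hX1, hX2⟩ := h1 κ q k N hκ hk hkq hN
  have hRS := (h2 q k (by omega) hkle).1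
  -- the embedding
  have hcard : Fintype.card (Fin N × ZMod q × ZMod q) ≤ Fintype.card (Fin d) := by
    rw [Fintype.card_prod, Fintype.card_prod, ZMod.card, Fintype.card_fin, Fintype.card_fin]
    refine le_trans ?_ hd
    calc N * (q * q) ≤ q * (q * q) := Nat.mul_le_mul_right _ (Nat.div_le_self _ _)
      _ = q ^ 3 := by ring
  obtain ⟨e⟩ := Function.Embedding.nonempty_of_card_le hcard
  have hkR : (8 : ℝ) ≤ k := by exact_mod_cast hk8
  have hkqR : (k : ℝ) ≤ q := by exact_mod_cast hkle
  have hD : (0 : ℝ) < k * (q - k + 1) := by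
    apply mul_pos <;> linarith
  set c : ℝ := Real.sqrt (2 / (k * (q - k + 1))) with hc
  have hc2 : c ^ 2 = 2 / (k * (q - k + 1)) := Real.sq_sqrt (by positivity)
  let p : G q k N → EuclideanSpace ℝ (Fin d) := fun u =>
    WithLp.toLp 2 (Function.extend e (gr c u) 0)
  have hdist : ∀ u v : G q k N, dist (p u) (p v) ^ 2 =
      2 * c ^ 2 * ∑ i ∈ dif u v, ((q : ℝ) - (zeros (u i - v i)).card) := by
    intro u v
    rw [← sum_dif, ← sum_gr, EuclideanSpace.dist_eq, Real.sq_sqrt (by positivity)]
    symm
    apply Fintype.sum_of_injective e e.injective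
    · intro x hx
      have h3 : ¬ ∃ t, e t = x := hx
      simp only [p]
      rw [Function.extend_apply' _ _ _ h3, Function.extend_apply' _ _ _ h3, dist_self]
      ring
    · intro t
      simp only [p]
      rw [e.injective.extend_apply, e.injective.extend_apply, Real.dist_eq, sq_abs]
  have hk1 : ((k - 1 : ℕ) : ℝ) = k - 1 := by
    rw [Nat.cast_sub (by omega)]
    simp
  have hge : ∀ u v : G q k N, ¬ bad k u v → u ≠ v → 2 ≤ dist (p u) (p v) := by
    intro u v hb hne
    have h3 : k ≤ (dif u v).card := by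
      by_contra h
      exact hb ⟨hne, not_le.1 h⟩
    have h4 : (k : ℝ) * (q - k + 1) ≤ ∑ i ∈ dif u v, ((q : ℝ) - (zeros (u i - v i)).card) := by
      calc (k : ℝ) * (q - k + 1) ≤ (dif u v).card * (q - k + 1) := by
            have : (k : ℝ) ≤ (dif u v).card := by exact_mod_cast h3
            apply mul_le_mul_of_nonneg_right this
            linarith
        _ = ∑ _i ∈ dif u v, ((q : ℝ) - k + 1) := by rw [Finset.sum_const, nsmul_eq_mul]
        _ ≤ ∑ i ∈ dif u v, ((q : ℝ) - (zeros (u i - v i)).card) := by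
            apply Finset.sum_le_sum
            intro i hi
            have h5 : u i - v i ≠ 0 := sub_ne_zero.2 (mem_filter.1 hi).2
            have h6 : ((zeros (u i - v i)).card : ℝ) ≤ ((k - 1 : ℕ) : ℝ) := by
              exact_mod_cast hRS _ h5
            rw [hk1] at h6
            linarith
    have h5 : (2 : ℝ) ^ 2 ≤ dist (p u) (p v) ^ 2 := by
      rw [hdist, hc2]
      calc (2 : ℝ) ^ 2 = 2 * (2 / (k * (q - k + 1))) * (k * (q - k + 1)) := by
            rw [mul_assoc, div_mul_cancel₀ _ hD.ne']
            norm_num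
        _ ≤ 2 * (2 / (k * (q - k + 1))) *
            ∑ i ∈ dif u v, ((q : ℝ) - (zeros (u i - v i)).card) := by gcongr
    exact le_of_pow_le_pow_left₀ (by norm_num) dist_nonneg h5
  have heq : ∀ u v : G q k N, adj k u v → dist (p u) (p v) = 2 := by
    rintro u v ⟨h3, h4⟩
    have h5 : ∑ i ∈ dif u v, ((q : ℝ) - (zeros (u i - v i)).card) = k * (q - k + 1) := by
      have h6 : ∀ i ∈ dif u v, ((q : ℝ) - (zeros (u i - v i)).card) = q - k + 1 := by
        intro i hi
        rw [h4 i hi, hk1]
        ring
      rw [Finset.sum_congr rfl h6, Finset.sum_const, nsmul_eq_mul, h3]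
    have h6 : dist (p u) (p v) ^ 2 = 2 ^ 2 := by
      rw [hdist, hc2, h5, mul_assoc, div_mul_cancel₀ _ hD.ne']
      norm_num
    exact (pow_left_inj₀ dist_nonneg (by norm_num) (by norm_num)).1 h6
  refine ⟨X.image p, ?_, ?_⟩
  · intro x hx y hy hxy
    obtain ⟨u, hu, rfl⟩ := mem_image.1 hx
    obtain ⟨v, hv, rfl⟩ := mem_image.1 hy
    exact hge u v (hX1 u hu v hv) (fun h => hxy (by rw [h]))
  · rintro ⟨f, hf⟩
    have h3 : ∀ j : Fin (q ^ (2 * κ)), (X.filter fun u => f (p u) = j).card * q ^ (2 * κ) <
        X.card := by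
      intro j
      apply hX2 _ (filter_subset _ _)
      intro u hu v hv hadj
      obtain ⟨hu1, hu2⟩ := mem_filter.1 hu
      obtain ⟨hv1, hv2⟩ := mem_filter.1 hv
      exact hf (p u) (mem_image_of_mem p hu1) (p v) (mem_image_of_mem p hv1) (heq u v hadj)
        (hu2.trans hv2.symm)
    have hM : 0 < q ^ (2 * κ) := pow_pos hqp.pos _
    have h4 : X.card = ∑ j : Fin (q ^ (2 * κ)), (X.filter fun u => f (p u) = j).card :=
      card_eq_sum_card_fiberwise (f := fun u => f (p u)) (t := univ)
        (fun _ _ => mem_coe.2 (mem_univ _))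
    have hne : (univ : Finset (Fin (q ^ (2 * κ)))).Nonempty := ⟨⟨0, hM⟩, mem_univ _⟩
    have h5 : ∑ j : Fin (q ^ (2 * κ)), (X.filter fun u => f (p u) = j).card * q ^ (2 * κ) <
        ∑ _j : Fin (q ^ (2 * κ)), X.card := Finset.sum_lt_sum_of_nonempty hne fun j _ => h3 j
    rw [← Finset.sum_mul, ← h4, Finset.sum_const, card_univ, Fintype.card_fin, smul_eq_mul,
      mul_comm] at h5
    exact lt_irrefl _ h5

end Pool.Agent.N353.TG
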